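import Pool.Agent.helper62.QU.Spec

/-! Row CVB: basic properties of the convolution with point pair invariants. -/

set_option autoImplicit false

open scoped MatrixGroups ContDiff Topology UpperHalfPlane
open UpperHalfPlane MeasureTheory Filter Set

namespace Pool.Agent.QU

theorem CVB_K (hT : TTT_stmt) {κ : ℝ → ℝ} (hκ : Continuous κ) :
    Continuous (fun p : ℍ × ℍ => κ (tt p.1 p.2)) := hκ.comp hT.2.2.2.2.1

theorem CVB_R (hT : TTT_stmt) {κ : ℝ → ℝ} (hκ : RK κ) :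
    ∃ R : ℝ, 0 ≤ R ∧ ∀ z w : ℍ, κ (tt z w) ≠ 0 → dist z w ≤ R := by
  obtain ⟨s, hs⟩ := hκ.supp
  obtain ⟨R, hR, h⟩ := hT.2.2.2.2.2.1 s
  refine ⟨R, hR, fun z w hzw => h z w ?_⟩
  by_contra hlt
  exact hzw (hs _ (not_le.1 hlt).le)

section gen

variable {E : Type} [NormedAddCommGroup E] [NormedSpace ℝ E]

theorem CVB_cont (hT : TTT_stmt) {κ : ℝ → ℝ} (hκ : Continuous κ) {f : ℍ → E} (hf : Continuous f) :
    Continuous (fun p : ℍ × ℍ => κ (tt p.1 p.2) • f p.2) :=
  (CVB_K hT hκ).smul (hf.comp continuous_snd)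

theorem CVB_cont1 (hT : TTT_stmt) {κ : ℝ → ℝ} (hκ : Continuous κ) {f : ℍ → E} (hf : Continuous f)
    (z : ℍ) : Continuous (fun w : ℍ => κ (tt z w) • f w) :=
  (CVB_cont hT hκ hf).comp (continuous_const.prodMk continuous_id)

theorem CVB_int (hT : TTT_stmt) {κ : ℝ → ℝ} (hκ : RK κ) {f : ℍ → E} (hf : Continuous f) (z : ℍ) :
    Integrable (fun w : ℍ => κ (tt z w) • f w) := by
  obtain ⟨R, _, h⟩ := CVB_R hT hκ
  refine (CVB_cont1 hT hκ.smooth.continuous hf z).integrable_of_hasCompactSupport ?_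
  refine HasCompactSupport.intro (isCompact_closedBall z R) fun w hw => ?_
  have : κ (tt z w) = 0 := by
    by_contra hne
    exact hw (by rw [Metric.mem_closedBall, dist_comm]; exact h z w hne)
  rw [this, zero_smul]

theorem CVB_1 (hT : TTT_stmt) (hI : INV_stmt) (κ : ℝ → ℝ) (f : ℍ → E) (g : SL(2, ℝ)) (z : ℍ) :
    conv κ (fun w => f (g • w)) z = conv κ f (g • z) := by
  unfold conv
  have h := hI.2.2.2.1 E g (fun w => κ (tt (g • z) w) • f w)
  rw [← h]
  simp only [hT.2.2.2.1 g z]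

theorem CVB_6 (hT : TTT_stmt) {κ : ℝ → ℝ} (hκ : RK κ) {f : ℍ → E} (hf : Continuous f) :
    Continuous (conv κ f) := by
  obtain ⟨R, _, h⟩ := CVB_R hT hκ
  rw [continuous_iff_continuousAt]
  intro z₀
  have h1 : Continuous (fun z : ℍ => ∫ w in Metric.closedBall z₀ (R + 1), κ (tt z w) • f w) :=
    continuous_parametric_integral_of_continuous (CVB_cont hT hκ.smooth.continuous hf)
      (isCompact_closedBall z₀ (R + 1))
  refine h1.continuousAt.congr ?_
  filter_upwards [Metric.ball_mem_nhds z₀ one_pos] with z hz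
  unfold conv
  refine setIntegral_eq_integral_of_forall_compl_eq_zero fun w hw => ?_
  have : κ (tt z w) = 0 := by
    by_contra hne
    apply hw
    rw [Metric.mem_closedBall]
    have h2 := h z w hne
    rw [Metric.mem_ball] at hz
    calc dist w z₀ ≤ dist w z + dist z z₀ := dist_triangle _ _ _
      _ ≤ R + 1 := by rw [dist_comm w z]; linarith
  rw [this, zero_smul]

theorem CVB_5 (hT : TTT_stmt) {κ : ℝ → ℝ} (hκ : RK κ) {f : ℍ → E} (hf : HasCompactSupport f) :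
    HasCompactSupport (conv κ f) := by
  obtain ⟨R, _, h⟩ := CVB_R hT hκ
  obtain ⟨M, hM⟩ := hf.isCompact.isBounded.subset_closedBall (UpperHalfPlane.I)
  refine HasCompactSupport.intro (isCompact_closedBall UpperHalfPlane.I (M + R)) fun z hz => ?_
  unfold conv
  rw [← integral_zero ℍ E]
  congr 1
  ext w
  by_cases h1 : κ (tt z w) = 0
  · rw [h1, zero_smul]
  · by_cases h2 : f w = 0
    · rw [h2, smul_zero]
    · exfalso
      apply hz
      rw [Metric.mem_closedBall]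
      have h3 := h z w h1
      have h4 : w ∈ Metric.closedBall UpperHalfPlane.I M := hM (subset_tsupport f h2)
      rw [Metric.mem_closedBall] at h4
      calc dist z UpperHalfPlane.I ≤ dist z w + dist w UpperHalfPlane.I := dist_triangle _ _ _
        _ ≤ M + R := by linarith

theorem CVB_7 (hT : TTT_stmt) (hI : INV_stmt) {κ : ℝ → ℝ} (hκ : RK κ) : ∃ C : ℝ,
    ∀ (f : ℍ → E) (m : ℝ), Continuous f → (∀ z, ‖f z‖ ≤ m) → ∀ z, ‖conv κ f z‖ ≤ C * m := by
  refine ⟨∫ w : ℍ, |κ (tt UpperHalfPlane.I w)|, fun f m hf hm z => ?_⟩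
  obtain ⟨g, hg⟩ := hT.2.2.2.2.2.2.2 UpperHalfPlane.I z
  have h1 : ∫ w : ℍ, |κ (tt z w)| = ∫ w : ℍ, |κ (tt UpperHalfPlane.I w)| := by
    have h := hI.2.2.2.1 ℝ g (fun w => |κ (tt z w)|)
    rw [← h, ← hg]
    simp only [hT.2.2.2.1 g UpperHalfPlane.I]
  have hi : Integrable (fun w : ℍ => κ (tt z w)) := by
    have := CVB_int (E := ℝ) hT hκ (f := fun _ => (1 : ℝ)) continuous_const z
    simpa using this
  unfold conv
  calc ‖∫ w : ℍ, κ (tt z w) • f w‖ ≤ ∫ w : ℍ, ‖κ (tt z w) • f w‖ := norm_integral_le_integral_norm _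
    _ ≤ ∫ w : ℍ, |κ (tt z w)| * m := by
        refine integral_mono (CVB_int hT hκ hf z).norm (hi.abs.mul_const m) fun w => ?_
        show ‖κ (tt z w) • f w‖ ≤ |κ (tt z w)| * m
        rw [norm_smul, Real.norm_eq_abs]
        exact mul_le_mul_of_nonneg_left (hm w) (abs_nonneg _)
    _ = (∫ w : ℍ, |κ (tt UpperHalfPlane.I w)|) * m := by rw [integral_mul_const, h1]

end gen

theorem CVB (h1 : TTT_stmt) (h2 : INV_stmt) (_h3 : CA1_stmt) (_h4 : LAK_stmt) : CVB_stmt := by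
  intro E _ _ _
  refine ⟨CVB_1 h1 h2, ?_, ?_, ?_, fun κ f hκ hf => CVB_5 h1 hκ hf, fun κ f hκ hf => CVB_6 h1 hκ hf,
    fun κ hκ => CVB_7 h1 h2 hκ, ?_⟩
  · intro κ f₁ f₂ c₁ c₂ z hκ hf₁ hf₂
    unfold conv
    have i1 : Integrable (fun w : ℍ => c₁ • (κ (tt z w) • f₁ w)) := (CVB_int h1 hκ hf₁ z).smul c₁
    have i2 : Integrable (fun w : ℍ => c₂ • (κ (tt z w) • f₂ w)) := (CVB_int h1 hκ hf₂ z).smul c₂
    rw [← integral_smul, ← integral_smul, ← integral_add i1 i2]
    congr 1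
    ext w
    rw [smul_add, smul_comm c₁, smul_comm c₂]
  · intro κ κ' f c c' z hκ hκ' hf
    unfold conv
    have i1 : Integrable (fun w : ℍ => c • (κ (tt z w) • f w)) := (CVB_int h1 hκ hf z).smul c
    have i2 : Integrable (fun w : ℍ => c' • (κ' (tt z w) • f w)) := (CVB_int h1 hκ' hf z).smul c'
    rw [← integral_smul, ← integral_smul, ← integral_add i1 i2]
    congr 1
    ext w
    rw [add_smul, mul_smul, mul_smul]
  · intro κ κ' f z h
    unfold conv
    congr 1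
    ext w
    rw [h _ (h1.2.1 z w)]
  · intro Γ κ g hκ hg
    refine ⟨CVB_6 h1 hκ hg.1, fun γ z => ?_⟩
    have h3 := CVB_1 (E := ℝ) h1 h2 κ g (γ : SL(2, ℝ)) z
    rw [Subgroup.smul_def, ← h3]
    congr 1
    ext w
    exact hg.2 γ w

end Pool.Agent.QU
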